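import Pool.Agent.Helper42.SQ.OMg
import Pool.Agent.Helper42.SQ.GERg
import Pool.Agent.Helper42.SQ.LIN
import Pool.Agent.Helper27.TOW.ALG
import Pool.Agent.Helper27.TOW.SUBT
import Pool.Agent.Helper61.AZ.ThmB

/-!
# AZ, block Z4b: the theorem for the germs of a sequence of points fixed by a subnormal subgroup
-/

set_option autoImplicit false

namespace Pool.Agent.SQ

open NumberField Filter Module MvPolynomial
open Pool.Agent.Helper64.Vojta (Pl nv sn above)
open Pool.Agent.V2
open Pool.Agent.Chart (fld dg crd hgt)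

universe u

/-- The theorem for the germs of a sequence of points which are fixed by the subnormal subgroup `H`, outside the zeros of the
members of `A`. -/
theorem germsB_tz {k : Type u} [Field k] [NumberField k] {G : Type} [Group G] [Fintype G] {D : SqG k G} {H : Subgroup G}
    [Fintype (G ⧸ H)] (hH : H.IsSubnormal) {n : ℕ} (x : ∀ a, Fin (n + 1) → D.L a) (hx : Ptg D x)
    (hxH : ∀ a, ∀ h ∈ H, ∀ j, D.s a h (x a j) = x a j) {q : ℕ} {l : Fin q → Fin (n + 1) → k} (hl : ∀ i, l i ∉ vang D x)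
    {A FF : Finset (Submodule k (Fin (n + 1) → k))} (hz : ZL l A FF) (hA : ∀ E ∈ A, ¬ E ≤ vang D x) (P : Finset (Pl k))
    {r : ℕ} (hr : 2 ≤ r) (hHr : H.index ≤ r) {ε : ℝ} (hε : 0 < ε) :
    ∀ᶠ a in (D.U : Filter ℕ), ∑ v ∈ P, ∑ g, ∑ i, (Real.log (mxn (D.N a v) fun j => D.s a g (x a j)) -
      Real.log (D.N a v (D.s a g (lvg (l i) (x a))))) ≤ (r * (n + 1) + ε) * D.H a := by
  classical
  obtain ⟨F⟩ := ger_g D
  obtain ⟨ξ, hξ⟩ := exists_xig F x hx
  set Θ : (Fin (n + 1) → k) →ₗ[k] F.K := Fintype.linearCombination k ξ with hΘdef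
  have hΘ : ∀ m, Θ m = ∑ j, m j • ξ j := fun m => Fintype.linearCombination_apply k ξ m
  have hrange : LinearMap.range Θ = Submodule.span k (Set.range ξ) := Fintype.range_linearCombination k ξ
  have hrp0 : ∀ᶠ a in (D.U : Filter ℕ), F.rp 0 a = 0 := by
    filter_upwards [F.rp_alg 0] with a ha
    rw [map_zero, map_zero] at ha
    exact ha
  have hker : LinearMap.ker Θ = vang D x := by
    ext m
    have h1 := rp_lvg F x hx ξ hξ m
    rw [← hΘ] at h1
    rw [LinearMap.mem_ker]
    constructor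
    · intro h2
      rw [h2] at h1
      show ∀ᶠ a in (D.U : Filter ℕ), lvg m (x a) = 0
      filter_upwards [h1, hrp0] with a h3 h4
      rw [← h3, h4]
    · intro h2
      refine F.rp_inj _ _ ?_
      have h3 : ∀ᶠ a in (D.U : Filter ℕ), lvg m (x a) = 0 := h2
      filter_upwards [h1, hrp0, h3] with a h4 h5 h6
      rw [h4, h5, h6]
  have hcinv : ∀ (v : Pl k) (g : G), ∀ h ∈ H, cg D x v (g * h) = cg D x v g := by
    intro v g h hh
    unfold cg
    congr 1
    funext a
    congr 3
    funext j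
    rw [map_mul, AlgEquiv.mul_apply, hxH a h hh j]
  have hvinv : ∀ z ∈ Submodule.span k (Set.range ξ), ∀ h ∈ H, F.s h z = z := by
    intro z hz h hh
    induction hz using Submodule.span_induction with
    | mem z hz =>
      obtain ⟨j, rfl⟩ := hz
      refine F.rp_inj _ _ ?_
      filter_upwards [F.rp_s h (ξ j), hξ j] with a h1 h2
      rw [h1, h2, hxH a h hh j]
    | zero => exact map_zero _
    | add a b _ _ ha hb => rw [map_add, ha, hb]
    | smul c a _ ha => rw [map_smul, ha]
  have hmem : ∀ m, Θ m ∈ Submodule.span k (Set.range ξ) := fun m => by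
    rw [← hrange]
    exact LinearMap.mem_range_self _ _
  have hL : ∀ i, Θ (l i) ≠ 0 := by
    intro i h
    rw [← LinearMap.mem_ker, hker] at h
    exact hl i h
  have hnn := fun (v : Pl k) (g : G) (z : F.K) hz hz0 => omg_nonneg F x hx ξ hξ v g z hz hz0
  have hΘ0 : Θ ≠ 0 := by
    intro h0
    obtain ⟨v, g⟩ : Nonempty (Pl k × G) := ⟨(.inl Classical.ofNonempty, 1)⟩
    obtain ⟨z, h1, h2, -⟩ := omg_attained F x hx ξ hξ v g
    rw [← hrange, h0, LinearMap.range_zero, Submodule.mem_bot] at h1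
    exact h2 h1
  have key := thmB_z hz (fun (i : P × G) (z : F.K) => omg F i.1 (F.s i.2 z))
    (fun i => (omg_RV F (i.1 : Pl k)).comp (F.s i.2)) (fun i => cg D x i.1 i.2) Θ hΘ0 hL
    (fun E hE => by
      have h1 := hA E hE
      rw [SetLike.le_def] at h1
      push Not at h1
      obtain ⟨m, hm, hm'⟩ := h1
      refine ⟨m, hm, fun h => hm' ?_⟩
      rw [← hker, LinearMap.mem_ker]
      exact h)
    (fun i m hm => hnn i.1 i.2 _ (hmem m) hm)
    (fun i => by
      obtain ⟨z, h1, h2, h3⟩ := omg_attained F x hx ξ hξ i.1 i.2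
      rw [← hrange] at h1
      obtain ⟨m, rfl⟩ := h1
      exact ⟨m, h2, h3⟩)
    (fun m hm => by
      have h1 := omg_prod F x hx ξ hξ P (Θ m) (hmem m) hm
      rw [← Finset.sum_coe_sort P (fun v => ∑ g, (omg F v (F.s g (Θ m)) + cg D x v g))] at h1
      rw [Fintype.sum_prod_type]
      exact h1)
    (fun d => r * d)
    (fun d D' _ _ _ => le_of_eq (by ring))
    (fun p hp => by
      have h1 : ((n + 1 - p : ℕ) : ℝ) = (n + 1 : ℕ) - p := by
        rw [Nat.cast_sub (by omega)]
      rw [h1]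
      have h2 : (2 : ℝ) ≤ r := by exact_mod_cast hr
      have h3 := mul_le_mul_of_nonneg_right h2 (Nat.cast_nonneg (α := ℝ) p)
      linarith)
    (fun E _ hE => by
      refine ⟨0, fun N hN => ?_⟩
      rw [hrange] at hE
      have : FiniteDimensional k (Submodule.span k (Set.range ξ)) :=
        FiniteDimensional.span_of_finite k (Set.finite_range ξ)
      have : FiniteDimensional k E := Submodule.finiteDimensional_of_le hE
      have h1 := abs_t F.s hH (P := P) (fun v => omg F v) (fun v => omg_RV F v) (fun v g => cg D x v g)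
        (fun v g h hh => hcinv v g h hh) E (fun z hz => hvinv z (hE hz))
        (fun v g z hz hz0 => hnn v g z (hE hz) hz0)
        (fun m E' hE' hEs N z hz hzE => sub_t F x hx hxH ξ hξ P m E' (hE'.trans (by
          exact pow_le_pow_left' (Finset.prod_le_prod' fun q _ => Submodule.map_mono hE) m)) hEs N z hz hzE) hN
      rw [Fintype.sum_prod_type]
      have h2 : (∑ v : P, ∑ g, (SN ((omg_RV F (v : Pl k)).comp (F.s g)) N (cg D x v g) E : ℝ)) ≤
          H.index * N * finrank k E := by exact_mod_cast h1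
      refine h2.trans ?_
      have h3 : (H.index : ℝ) ≤ r := by exact_mod_cast hHr
      have h4 := mul_le_mul_of_nonneg_right h3 (mul_nonneg (Nat.cast_nonneg (α := ℝ) N) (Nat.cast_nonneg (α := ℝ) (finrank k E)))
      linarith)
  have key' : ∑ v ∈ P, ∑ g, ∑ i, (omg F v (F.s g (Θ (l i))) + cg D x v g) ≤ r * (n + 1) := by
    rw [Fintype.sum_prod_type] at key
    rw [← Finset.sum_coe_sort P
      (fun v => ∑ g, ∑ i, (omg F v (F.s g (Θ (l i))) + cg D x v g))]
    have h1 : ((n + 1 : ℕ) : ℝ) = n + 1 := by push_cast; ring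
    rw [← h1]
    exact key
  have hlim : ∀ (v : Pl k) (g : G) (i : Fin q), Tendsto (fun a => (Real.log (mxn (D.N a v) fun j => D.s a g (x a j)) -
      Real.log (D.N a v (D.s a g (lvg (l i) (x a))))) / D.H a) (D.U : Filter ℕ)
      (nhds (omg F v (F.s g (Θ (l i))) + cg D x v g)) := by
    intro v g i
    have h0 : F.s g (Θ (l i)) ≠ 0 := by
      rw [Ne, EmbeddingLike.map_eq_zero_iff]
      exact hL i
    have h1 := (omg_tendsto F v _ h0).add (cg_tendsto x hx v g)
    refine h1.congr' ?_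
    have h2 := rp_lvg F x hx ξ hξ (l i)
    rw [← hΘ] at h2
    filter_upwards [h2, F.rp_s g (Θ (l i))] with a h3 h4
    rw [h4, h3]
    ring
  have hsum : Tendsto (fun a => ∑ v ∈ P, ∑ g, ∑ i, (Real.log (mxn (D.N a v) fun j => D.s a g (x a j)) -
      Real.log (D.N a v (D.s a g (lvg (l i) (x a))))) / D.H a) (D.U : Filter ℕ)
      (nhds (∑ v ∈ P, ∑ g, ∑ i, (omg F v (F.s g (Θ (l i))) + cg D x v g))) :=
    tendsto_finsetSum _ fun v _ => tendsto_finsetSum _ fun g _ => tendsto_finsetSum _ fun i _ => hlim v g i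
  have hlt : ∑ v ∈ P, ∑ g, ∑ i, (omg F v (F.s g (Θ (l i))) + cg D x v g) < r * (n + 1) + ε := by linarith
  filter_upwards [hsum.eventually (gt_mem_nhds hlt), D.H1.eventually (eventually_gt_atTop 0)] with a h1 h2
  have h3 : ∑ v ∈ P, ∑ g, ∑ i, (Real.log (mxn (D.N a v) fun j => D.s a g (x a j)) -
      Real.log (D.N a v (D.s a g (lvg (l i) (x a))))) / D.H a = (∑ v ∈ P, ∑ g, ∑ i, (Real.log (mxn (D.N a v) fun j =>
      D.s a g (x a j)) - Real.log (D.N a v (D.s a g (lvg (l i) (x a)))))) / D.H a := by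
    simp only [Finset.sum_div]
  rw [h3, div_lt_iff₀ h2] at h1
  exact h1.le

end Pool.Agent.SQ
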