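import Pool.Agent.Helper27.TOW.SEQT
import Pool.Agent.Helper42.SQ.FINg
import Pool.Agent.Helper67.AZ.GT

/-!
# AZ, block Z5b: the final argument on `P^n` for points in towers, with a list of bad subspaces which depends on the forms only
-/

set_option autoImplicit false

namespace Pool.Agent.SQ

open NumberField Filter Module
open Pool.Agent.Helper64.Vojta (Pl nv sn above)
open Pool.Agent.V2
open Pool.Agent.Chart (fld dg crd val hgt lam)

universe u

/-- The inequality for the points in towers, outside the zeros of the members of the list `A`, which does not depend on `S`,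
`ε` and `r`. -/
theorem fin_tz {k : Type u} [Field k] [NumberField k] {n q r : ℕ} (hr : 2 ≤ r) {l : Fin q → Fin (n + 1) → k}
    {A FF : Finset (Submodule k (Fin (n + 1) → k))} (hz : ZL l A FF) (S : Finset (Pl k)) {ε : ℝ} (hε : 0 < ε) :
    ∃ C : ℝ, ∀ x : Fin (n + 1) → AlgebraicClosure k, (∃ j, x j = 1) → InTower r x → (∀ i, val (l i) x ≠ 0) →
      (∀ N ∈ A, ∃ m ∈ N, val m x ≠ 0) → ∑ ν ∈ S, ∑ i, lam (l i) ν x ≤ (r * (n + 1) + ε) * hgt x + C := by
  classical
  by_contra hcon
  push Not at hcon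
  have hx := fun m : ℕ => hcon m
  choose x h1 hr' hv hN hbig using hx
  obtain ⟨G, gG, fG, H, φ, hφ, hHs, hHr, y, M, s, hy, hQ, hyH, hH, hlam⟩ := exists_seq_t x h1 hr'
  have fGH : Fintype (G ⧸ H) := Fintype.ofFinite _
  set c : ℝ := (Fintype.card G : ℝ) with hc
  have hc0 : 0 < c := by
    rw [hc]
    exact_mod_cast Fintype.card_pos
  have hφa : ∀ a, a ≤ φ a := fun a => hφ.le_apply
  have hlv : ∀ a m, lvg m (y a) = 0 ↔ val m (x (φ a)) = 0 := fun a m => val_eq_zero_iff _ _ (hy a) m
  have hy1 : ∀ a, ∃ j, y a j = 1 := by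
    intro a
    obtain ⟨j, hj⟩ := h1 (φ a)
    refine ⟨j, Subtype.ext ?_⟩
    rw [hy a j, hj]
    rfl
  -- the Weil functions
  have hlam' : ∀ a i ν, c * lam (l i) ν (x (φ a)) =
      ∑ g, (Real.log (mxn (M a ν) fun j => s a g (y a j)) - Real.log (M a ν (s a g (lvg (l i) (y a))))) := by
    intro a i ν
    have h2 := hlam a ν 1 (fpol (l i)) (by
      rw [aeval_fpol, ← val_eq_lvg]
      exact hv (φ a) i)
    rw [lamP_fpol, aeval_fpol] at h2
    rw [hc, h2]
    refine Finset.sum_congr rfl fun g _ => ?_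
    rw [Nat.cast_one, one_mul]
  have hsum : ∀ a, c * ∑ ν ∈ S, ∑ i, lam (l i) ν (x (φ a)) = ∑ ν ∈ S, ∑ g, ∑ i,
      (Real.log (mxn (M a ν) fun j => s a g (y a j)) - Real.log (M a ν (s a g (lvg (l i) (y a))))) := by
    intro a
    rw [Finset.mul_sum]
    refine Finset.sum_congr rfl fun ν _ => ?_
    rw [Finset.mul_sum, Finset.sum_comm]
    exact Finset.sum_congr rfl fun i _ => hlam' a i ν
  -- Liouville
  have hLi := fun i => liouville_g G (fpol (l i)) (fpol_hom (l i)) S
  choose C hC using hLi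
  have hup : ∀ a, c * ∑ ν ∈ S, ∑ i, lam (l i) ν (x (φ a)) ≤ q * Hg (s a) (M a) (y a) + ∑ i, C i := by
    intro a
    have h2 : ∀ i, ∑ ν ∈ S, c * lam (l i) ν (x (φ a)) ≤ Hg (s a) (M a) (y a) + C i := by
      intro i
      have h3 := hC i (gal (x (φ a))) (s a) (M a) (hQ a) (y a) (hy1 a) (by
        rw [aeval_fpol]
        exact fun h => hv (φ a) i ((hlv a _).1 h))
      rw [aeval_fpol, Nat.cast_one, one_mul] at h3
      refine le_trans (le_of_eq ?_) h3
      refine Finset.sum_congr rfl fun ν _ => ?_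
      rw [hlam' a i ν]
      refine Finset.sum_congr rfl fun g _ => ?_
      rw [one_mul]
    have h4 : c * ∑ ν ∈ S, ∑ i, lam (l i) ν (x (φ a)) = ∑ i, ∑ ν ∈ S, c * lam (l i) ν (x (φ a)) := by
      rw [Finset.mul_sum, Finset.sum_comm]
      refine Finset.sum_congr rfl fun ν _ => ?_
      rw [Finset.mul_sum]
    rw [h4]
    refine (Finset.sum_le_sum fun i _ => h2 i).trans (le_of_eq ?_)
    rw [Finset.sum_add_distrib, Finset.sum_const, Finset.card_univ, Fintype.card_fin, nsmul_eq_mul]
  have hH0 : ∀ a, 0 ≤ Hg (s a) (M a) (y a) := by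
    intro a
    rw [← hH a]
    exact mul_nonneg hc0.le (hgt_nonneg' _)
  have hH1 : Tendsto (fun a => Hg (s a) (M a) (y a)) atTop atTop := by
    have h2 : ∀ a : ℕ, (c * a - ∑ i, C i) / (q + 1) ≤ Hg (s a) (M a) (y a) := by
      intro a
      have hq : (0 : ℝ) < q + 1 := by positivity
      rw [div_le_iff₀ hq]
      have h3 := hup a
      have h4 := mul_lt_mul_of_pos_left (hbig (φ a)) hc0
      have h5 : c * ((r * (n + 1) + ε) * hgt (x (φ a)) + φ a) =
          (r * (n + 1) + ε) * Hg (s a) (M a) (y a) + c * φ a := by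
        rw [← hH a]
        ring
      have h6 : 0 ≤ (r * (n + 1) + ε) * Hg (s a) (M a) (y a) := mul_nonneg (by positivity) (hH0 a)
      have h7 : c * (a : ℝ) ≤ c * φ a := mul_le_mul_of_nonneg_left (by exact_mod_cast hφa a) hc0.le
      have h8 := hH0 a
      nlinarith
    refine tendsto_atTop_mono h2 ?_
    refine Tendsto.atTop_div_const (by positivity) ?_
    exact tendsto_atTop_add_const_right _ _ (tendsto_natCast_atTop_atTop.const_mul_atTop hc0)
  -- the data
  let D : SqG k G :=
    { U := hyperfilter ℕ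
      L := fun a => gal (x (φ a))
      fL := fun a => inferInstance
      aL := fun a => inferInstance
      s := s
      N := M
      qs := hQ
      H := fun a => Hg (s a) (M a) (y a)
      H1 := hH1.mono_left Nat.hyperfilter_le_atTop }
  let y' : ∀ a, Fin (n + 1) → D.L a := y
  have hPt : Ptg D y' := ⟨hy1, fun a => rfl⟩
  have hne : (D.U : Filter ℕ).NeBot := D.U.neBot
  have hltop : (D.U : Filter ℕ) ≤ atTop := Nat.hyperfilter_le_atTop
  have hlN : ∀ i, l i ∉ vang D y' := by
    intro i hi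
    have h2 : ∀ᶠ a in (D.U : Filter ℕ), lvg (l i) (y' a) = 0 := hi
    obtain ⟨a, ha⟩ := h2.exists
    exact hv (φ a) i ((hlv a _).1 ha)
  have hnb : ∀ E ∈ A, ¬ E ≤ vang D y' := by
    intro E hE hle
    obtain ⟨t, ht⟩ := (IsNoetherian.noetherian E : E.FG)
    have h2 : ∀ m ∈ t, ∀ᶠ a in (D.U : Filter ℕ), lvg m (y' a) = 0 := by
      intro m hm
      have : m ∈ vang D y' := by
        apply hle
        rw [← ht]
        exact Submodule.subset_span hm
      exact this
    have h3 : ∀ᶠ a in (D.U : Filter ℕ), ∀ m ∈ t, lvg m (y' a) = 0 := by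
      rw [← Finset.eventually_all] at h2
      exact h2
    obtain ⟨a, ha⟩ := h3.exists
    obtain ⟨m, hm, hm'⟩ := hN (φ a) E hE
    apply hm'
    rw [← hlv a]
    rw [← ht] at hm
    have h5 : Submodule.span k (t : Set (Fin (n + 1) → k)) ≤
        LinearMap.ker ((Fintype.linearCombination k (y a)).comp (LinearMap.id : (Fin (n + 1) → k) →ₗ[k] _)) := by
      rw [Submodule.span_le]
      intro m hm
      have := ha m hm
      rw [SetLike.mem_coe, LinearMap.mem_ker]
      have h6 : lvg m (y a) = 0 := this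
      rw [← h6]
      simp [lvg, Fintype.linearCombination_apply, Algebra.smul_def]
    have h6 := h5 hm
    rw [LinearMap.mem_ker] at h6
    rw [← h6]
    simp [lvg, Fintype.linearCombination_apply, Algebra.smul_def]
  obtain ⟨a, ha⟩ := (germsB_tz hHs y' hPt hyH hlN hz hnb S hr hHr hε).exists
  have h2 : c * ∑ ν ∈ S, ∑ i, lam (l i) ν (x (φ a)) ≤ (r * (n + 1) + ε) * (c * hgt (x (φ a))) := by
    rw [hsum a, hH a]
    exact ha
  have h6 : ∑ ν ∈ S, ∑ i, lam (l i) ν (x (φ a)) ≤ (r * (n + 1) + ε) * hgt (x (φ a)) := by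
    refine le_of_mul_le_mul_left (h2.trans (le_of_eq ?_)) hc0
    ring
  have h7 := hbig (φ a)
  have h8 : (0 : ℝ) ≤ φ a := Nat.cast_nonneg _
  linarith

end Pool.Agent.SQ
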